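import Pool.Agent.D0H16.SH.N5b

set_option autoImplicit false

namespace Pool.Agent.D0H16.SH

open Finset Pool.Agent.D0H17.GE Pool.Agent.D0H17.SH

theorem core (n R t j : ℕ) (K CG Q G C3 e A Λ θ : ℝ) (hK : 1 ≤ K) (hCG : 0 ≤ CG) (hQ : Q = R + 1)
    (hG : G = Q ^ (n + 2) * K ^ (n + 2)) (hC3 : C3 = 2 * (t + 1) * G) (he : 0 < e)
    (heq : 16 * Q * K ^ (n + 2) * e = 1) (hA : A * (e / 2) ^ (n + 1) = 10 * (C3 + CG) + 1) (_hA0 : 0 < A)
    (hΛ1 : 1 ≤ e * Λ) (hΛ2 : 8 * (C3 + CG) * K ^ (n + 2) ≤ Λ) (hΛ3 : 8 * Q * (1 + C3) ≤ Λ) (hΛ8 : 8 ≤ Λ)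
    (hθ : 0 ≤ θ) (hθ1 : θ ≤ 1) (p : ℕ → ℝ) (hS : SN Λ K n j (t + 1) p)
    (u u' v v' : Fin (t + 1) → ℕ) (hu : u ∈ XS R (t + 1) p) (hu' : u' ∈ XS R (t + 1) p)
    (hv : v ∈ YY e A (t + 1) p) (hv' : v' ∈ YY e A (t + 1) p) (hne : v ≠ v')
    (hD : |TT (n + 2) θ u + TT (n + 2) θ v - (TT (n + 2) θ u' + TT (n + 2) θ v')| ≤ CG * p t ^ (n + 1)) :
    |TT (n + 1) 0 v - TT (n + 1) 0 v'| ≤ (2 / e + 1 + 8 * Q * C3) *
        |TT (n + 1) θ u + TT (n + 1) θ v - (TT (n + 1) θ u' + TT (n + 1) θ v')| ∧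
      |TT n θ u + TT n θ v - (TT n θ u' + TT n θ v')| ≤ (3 + 4 / e + 16 * Q * C3) *
        |TT (n + 1) θ u + TT (n + 1) θ v - (TT (n + 1) θ u' + TT (n + 1) θ v')| := by
  have hΛp : 1 ≤ Λ := by linarith
  have hR0 : (0:ℝ) ≤ R := Nat.cast_nonneg R
  have hQ1 : 1 ≤ Q := by linarith
  have hQ0 : 0 < Q := by linarith
  have hK0 : 0 < K := by linarith
  have hKk : 1 ≤ K ^ (n + 2) := one_le_pow₀ hK
  have hQk : 1 ≤ Q ^ (n + 2) := one_le_pow₀ hQ1
  have ht0 : (0:ℝ) ≤ t := Nat.cast_nonneg t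
  have hG1 : 1 ≤ G := by rw [hG]; exact one_le_mul_of_one_le_of_one_le hQk hKk
  have hC30 : 0 < C3 := by rw [hC3]; positivity
  have hGC : 2 * G ≤ C3 := by rw [hC3]; nlinarith
  have htG : (t:ℝ) * (2 * G) ≤ C3 := by rw [hC3]; nlinarith
  have he16 : 16 * e ≤ 1 := by
    have h1 : 1 ≤ Q * K ^ (n + 2) := one_le_mul_of_one_le_of_one_le hQ1 hKk
    nlinarith
  have h1e : 0 < 1 / e := by positivity
  have hbig : ∀ i, i ≤ t + 1 → Λ ≤ p i := hS.big
  have hp1 : ∀ i, i ≤ t + 1 → 1 ≤ p i := fun i hi => hΛp.trans (hbig i hi)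
  have hpf1 : ∀ i : Fin (t + 1), 1 ≤ p i := fun i => hp1 i (by omega)
  have hpf0 : ∀ i : Fin (t + 1), 0 ≤ p i := fun i => by linarith [hpf1 i]
  have heP : ∀ i : Fin (t + 1), 1 ≤ e * p i := fun i => by
    have := mul_le_mul_of_nonneg_left (hbig i (by omega)) he.le
    linarith
  -- ranges
  have hux : ∀ l : Fin (t + 1), p l ≤ (u l : ℝ) + θ ∧ (u l : ℝ) + θ ≤ Q * p l := fun l => by
    have h := mem_XS' hu hpf0 l
    have := hpf1 l
    constructor
    · linarith [h.1]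
    · rw [hQ]; linarith [h.2]
  have hux' : ∀ l : Fin (t + 1), p l ≤ (u' l : ℝ) + θ ∧ (u' l : ℝ) + θ ≤ Q * p l := fun l => by
    have h := mem_XS' hu' hpf0 l
    have := hpf1 l
    constructor
    · linarith [h.1]
    · rw [hQ]; linarith [h.2]
  have hvx : ∀ l : Fin (t + 1), e * p l / 2 ≤ (v l : ℝ) + θ ∧ (v l : ℝ) + θ ≤ 2 * (e * p l) := fun l => by
    have h := mem_YY hv hpf0 he.le l
    have := heP l
    exact ⟨by linarith [h.1], by linarith [h.2.1]⟩
  have hvx' : ∀ l : Fin (t + 1), e * p l / 2 ≤ (v' l : ℝ) + θ ∧ (v' l : ℝ) + θ ≤ 2 * (e * p l) := fun l => by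
    have h := mem_YY hv' hpf0 he.le l
    have := heP l
    exact ⟨by linarith [h.1], by linarith [h.2.1]⟩
  have h2e : ∀ l : Fin (t + 1), 2 * (e * p l) ≤ Q * p l := fun l => by
    have h1 : 2 * e ≤ Q := by linarith
    have := mul_le_mul_of_nonneg_right h1 (hpf0 l)
    linarith
  set a : ℕ → Fin (t + 1) → ℝ := fun m l => ((u l : ℝ) + θ) ^ m - ((u' l : ℝ) + θ) ^ m with ha
  set b : ℕ → Fin (t + 1) → ℝ := fun m l => ((v l : ℝ) + θ) ^ m - ((v' l : ℝ) + θ) ^ m with hb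
  have eT : ∀ m, TT m θ u + TT m θ v - (TT m θ u' + TT m θ v') = ∑ l, (a m l + b m l) := fun m => by
    simp only [TT, ha, hb, sum_add_distrib, sum_sub_distrib]; ring
  rw [eT] at hD
  rw [eT, eT]
  have hu0 : ∀ l : Fin (t + 1), 0 ≤ (u l : ℝ) + θ := fun l => by positivity
  have hu0' : ∀ l : Fin (t + 1), 0 ≤ (u' l : ℝ) + θ := fun l => by positivity
  have hv0 : ∀ l : Fin (t + 1), 0 ≤ (v l : ℝ) + θ := fun l => by positivity
  have hv0' : ∀ l : Fin (t + 1), 0 ≤ (v' l : ℝ) + θ := fun l => by positivity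
  have asz : ∀ m l, |a m l| ≤ (Q * p l) ^ m := fun m l => pd_bd m (hu0 l) (hu0' l) (hux l).2 (hux' l).2
  have bsz' : ∀ m l, |b m l| ≤ (2 * (e * p l)) ^ m := fun m l => pd_bd m (hv0 l) (hv0' l) (hvx l).2 (hvx' l).2
  have bsz : ∀ m l, |b m l| ≤ (Q * p l) ^ m := fun m l =>
    (bsz' m l).trans (pow_le_pow_left₀ (by have := heP l; linarith) (h2e l) m)
  -- sizes beyond an index
  have hQp : ∀ i l : Fin (t + 1), i < l → Q * p l ≤ Q * p (i + 1) := fun i l hil => by
    have hil' : (i : ℕ) + 1 ≤ l := hil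
    exact mul_le_mul_of_nonneg_left (sn_anti hS hΛp hil' (by omega)) hQ0.le
  have hQpl0 : ∀ l : Fin (t + 1), 0 ≤ Q * p l := fun l => mul_nonneg hQ0.le (hpf0 l)
  have far2 : ∀ i l : Fin (t + 1), i < l → (Q * p l) ^ (n + 2) ≤ G * p i ^ (n + 1) := fun i l hil => by
    refine (pow_le_pow_left₀ (hQpl0 l) (hQp i l hil) _).trans ?_
    rw [mul_pow, hS.step i (by omega), hG]
    exact le_of_eq (by ring)
  have far1 : ∀ i l : Fin (t + 1), i < l → (Q * p l) ^ (n + 1) ≤ G * (p i ^ n * (p i / p (i + 1))) := fun i l hil => by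
    refine (pow_le_pow_left₀ (hQpl0 l) (hQp i l hil) _).trans ?_
    rw [mul_pow, sn_step hS hΛp (by omega), hG]
    have h1 : Q ^ (n + 1) ≤ Q ^ (n + 2) := pow_le_pow_right₀ hQ1 (by omega)
    have h2 : 0 ≤ K ^ (n + 2) * (p i ^ n * (p i / p (i + 1))) := by
      have := hpf0 i
      have := hp1 (i + 1) (by omega)
      positivity
    calc Q ^ (n + 1) * (K ^ (n + 2) * (p i ^ n * (p i / p (i + 1)))) ≤
        Q ^ (n + 2) * (K ^ (n + 2) * (p i ^ n * (p i / p (i + 1)))) := mul_le_mul_of_nonneg_right h1 h2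
      _ = _ := by ring
  have hQp1 : ∀ l : Fin (t + 1), 1 ≤ Q * p l := fun l => one_le_mul_of_one_le_of_one_le hQ1 (hpf1 l)
  have low : ∀ l : Fin (t + 1), (Q * p l) ^ n ≤ (Q * p l) ^ (n + 1) := fun l =>
    pow_le_pow_right₀ (hQp1 l) (by omega)
  have hpt : ∀ k : Fin (t + 1), p t ^ (n + 1) ≤ p k ^ (n + 1) := fun k =>
    pow_le_pow_left₀ (by linarith [hp1 t (by omega)]) (sn_anti hS hΛp (by omega) (by omega)) _
  -- first differing index of v
  obtain ⟨N, hN, hNmin⟩ := first_diff v v' hne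
  have hb0 : ∀ m l, l < N → b m l = 0 := fun m l hl => by simp [hb, hNmin l hl]
  -- the size of the first difference
  have hPN0 : 0 < p N := by linarith [hpf1 N]
  set q : ℝ := p N / p (N + 1) with hq
  have hqΛ : Λ ≤ q := by
    rw [hq, le_div_iff₀ (by linarith [hp1 (N + 1) (by omega)])]
    exact hS.gap N (by omega)
  have hq1 : 1 ≤ q := hΛp.trans hqΛ
  have hbN : (10 * (C3 + CG) + 1) * (p N ^ (n + 1) * q) ≤ |b (n + 2) N| := by
    have h1 := pd_ge (n + 1) (L := e * p N / 2) (by have := heP N; linarith) (hvx N).1 (hvx' N).1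
    have h2 := dist_dvd (mem_YY hv hpf0 he.le N).2.2 (mem_YY hv' hpf0 he.le N).2.2 hN
    have h3 : A * q ≤ |((v N : ℝ) + θ) - ((v' N : ℝ) + θ)| := by
      have h4 := (Nat.le_ceil (A * (p N / p (N + 1)))).trans h2
      rw [← hq] at h4
      have e1 : ((v N : ℝ) + θ) - ((v' N : ℝ) + θ) = (v N : ℝ) - v' N := by ring
      rw [e1]; exact h4
    have h5 : 0 ≤ (e * p N / 2) ^ (n + 1) := by positivity
    calc (10 * (C3 + CG) + 1) * (p N ^ (n + 1) * q) = A * q * (e * p N / 2) ^ (n + 1) := by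
          rw [← hA]
          have : (e * p N / 2) ^ (n + 1) = (e / 2) ^ (n + 1) * p N ^ (n + 1) := by rw [← mul_pow]; ring
          rw [this]; ring
      _ ≤ _ := (mul_le_mul_of_nonneg_right h3 h5).trans h1
  have hPN : 0 < p N ^ (n + 1) := by positivity
  have hbN' : (10 * (C3 + CG) + 1) * p N ^ (n + 1) ≤ |b (n + 2) N| := by
    refine le_trans ?_ hbN
    apply mul_le_mul_of_nonneg_left _ (by positivity)
    exact le_mul_of_one_le_right hPN.le hq1
  -- case A is impossible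
  have hcaseA : ¬ (∀ l, l ≤ N → a (n + 2) l = 0) := by
    intro hall
    have T1 := tail (fun l => a (n + 2) l + b (n + 2) l) N (2 * (G * p N ^ (n + 1))) (fun l hl => by
      rcases lt_or_gt_of_ne hl with h | h
      · simp only [hall l h.le, hb0 _ l h, add_zero, abs_zero]; positivity
      · exact abs_add_two ((asz _ l).trans (far2 N l h)) ((bsz _ l).trans (far2 N l h)))
    simp only [hall N le_rfl, zero_add] at T1
    have h1 : |b (n + 2) N| ≤ |∑ l, (a (n + 2) l + b (n + 2) l)| + |∑ l, (a (n + 2) l + b (n + 2) l) - b (n + 2) N| := by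
      have := abs_sub (∑ l, (a (n + 2) l + b (n + 2) l)) (∑ l, (a (n + 2) l + b (n + 2) l) - b (n + 2) N)
      simpa using this
    have h2 := mul_le_mul_of_nonneg_left (hpt N) hCG
    have h3 : (t:ℝ) * (2 * (G * p N ^ (n + 1))) ≤ C3 * p N ^ (n + 1) := by
      have := mul_le_mul_of_nonneg_right htG hPN.le
      linarith
    have h4 : 0 < (9 * (C3 + CG) + 1) * p N ^ (n + 1) := by positivity
    linarith
  have hex : u ≠ u' := by
    intro h; apply hcaseA; intro l _; simp [ha, h]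
  obtain ⟨i, hi, himin⟩ := first_diff u u' hex
  have ha0 : ∀ m l, l < i → a m l = 0 := fun m l hl => by simp [ha, himin l hl]
  have hin : i ≤ N := by
    by_contra hlt
    apply hcaseA; intro l hl; exact ha0 _ l (by omega)
  have hDi : |∑ l, (a (n + 2) l + b (n + 2) l)| ≤ CG * p i ^ (n + 1) :=
    hD.trans (mul_le_mul_of_nonneg_left (hpt i) hCG)
  have hΔ0 : TT (n + 1) 0 v - TT (n + 1) 0 v' = ∑ l, ((v l : ℝ) ^ (n + 1) - (v' l : ℝ) ^ (n + 1)) := by
    simp only [TT, add_zero, sum_sub_distrib]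
  have hsh : ∀ l, |(v l : ℝ) ^ (n + 1) - (v' l : ℝ) ^ (n + 1)| ≤ |b (n + 1) l| := fun l =>
    pd_shift (n + 1) (Nat.cast_nonneg _) (Nat.cast_nonneg _) hθ
  rw [hΔ0]
  rcases eq_or_lt_of_le hin with heq' | hlt
  · -- case B
    subst heq'
    have hP1 := hpf1 i
    have hX : |b (n + 2) i| = p i * (|b (n + 2) i| / p i) := by field_simp
    have hEX : C3 * (p i ^ n * q) ≤ |b (n + 2) i| / p i := by
      rw [le_div_iff₀ hPN0]
      refine le_trans ?_ hbN
      have e1 : C3 * (p i ^ n * q) * p i = C3 * (p i ^ (n + 1) * q) := by ring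
      rw [e1]
      apply mul_le_mul_of_nonneg_right _ (by positivity)
      linarith
    have hE0 : 0 ≤ G * (p i ^ n * q) := by positivity
    have htE : (t:ℝ) * (2 * (G * (p i ^ n * q))) ≤ C3 * (p i ^ n * q) := by
      have : 0 ≤ p i ^ n * q := by positivity
      have := mul_le_mul_of_nonneg_right htG this
      linarith
    have T2 := tail (fun l => a (n + 2) l + b (n + 2) l) i (2 * (G * p i ^ (n + 1))) (fun l hl => by
      rcases lt_or_gt_of_ne hl with h | h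
      · simp only [ha0 _ l h, hb0 _ l h, add_zero, abs_zero]; positivity
      · exact abs_add_two ((asz _ l).trans (far2 i l h)) ((bsz _ l).trans (far2 i l h)))
    have T1 := tail (fun l => a (n + 1) l + b (n + 1) l) i (2 * (G * (p i ^ n * q))) (fun l hl => by
      rcases lt_or_gt_of_ne hl with h | h
      · simp only [ha0 _ l h, hb0 _ l h, add_zero, abs_zero]; positivity
      · exact abs_add_two ((asz _ l).trans (far1 i l h)) ((bsz _ l).trans (far1 i l h)))
    have T0 := tail (fun l => a n l + b n l) i (2 * (G * (p i ^ n * q))) (fun l hl => by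
      rcases lt_or_gt_of_ne hl with h | h
      · simp only [ha0 _ l h, hb0 _ l h, add_zero, abs_zero]; positivity
      · exact abs_add_two ((asz _ l).trans ((low l).trans (far1 i l h)))
          ((bsz _ l).trans ((low l).trans (far1 i l h))))
    have TΔ := tail (fun l => (v l : ℝ) ^ (n + 1) - (v' l : ℝ) ^ (n + 1)) i (2 * (G * (p i ^ n * q))) (fun l hl => by
      rcases lt_or_gt_of_ne hl with h | h
      · simp only [hNmin l h, sub_self, abs_zero]; positivity
      · exact ((hsh l).trans ((bsz _ l).trans (far1 i l h))).trans (by linarith))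
    have hab : |a (n + 2) i + b (n + 2) i| ≤ (C3 + CG) * p i ^ (n + 1) := by
      have h1 := abs_sub (∑ l, (a (n + 2) l + b (n + 2) l))
        (∑ l, (a (n + 2) l + b (n + 2) l) - (a (n + 2) i + b (n + 2) i))
      rw [sub_sub_cancel] at h1
      have h3 : (t:ℝ) * (2 * (G * p i ^ (n + 1))) ≤ C3 * p i ^ (n + 1) := by
        have := mul_le_mul_of_nonneg_right htG hPN.le
        linarith
      linarith
    have key := numB (P := p i) (X := |b (n + 2) i| / p i) (a := a (n + 2) i) (a1 := a (n + 1) i) (a2 := a n i)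
      (b := b (n + 2) i) (b1 := b (n + 1) i) (b2 := b n i) (D1 := ∑ l, (a (n + 1) l + b (n + 1) l))
      (D2 := ∑ l, (a n l + b n l)) (Δ := |∑ l, ((v l : ℝ) ^ (n + 1) - (v' l : ℝ) ^ (n + 1))|) (e := e)
      (T := (C3 + CG) * p i ^ (n + 1)) (E := C3 * (p i ^ n * q)) hP1 he (heP i) he16 hX hab
      (by rw [← hX]; have := hPN.le; linarith)
      (pd_mul (n + 1) (hpf0 i) (hux i).1 (hux' i).1) (pd_mul n (hpf0 i) (hux i).1 (hux' i).1)
      (pd_le n (hv0 i) (hv0' i) (hvx i).2 (hvx' i).2)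
      (pd_mul (n + 1) (by have := heP i; linarith) (hvx i).1 (hvx' i).1)
      (pd_mul n (by have := heP i; linarith) (hvx i).1 (hvx' i).1)
      hEX (T1.trans htE) (T0.trans htE)
      (by
        have h1 := abs_add_le (∑ l, ((v l : ℝ) ^ (n + 1) - (v' l : ℝ) ^ (n + 1)) -
          ((v i : ℝ) ^ (n + 1) - (v' i : ℝ) ^ (n + 1))) ((v i : ℝ) ^ (n + 1) - (v' i : ℝ) ^ (n + 1))
        rw [sub_add_cancel] at h1
        have h2 := hsh i
        have h3 := TΔ.trans htE
        linarith)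
    have h1 : 0 ≤ 8 * Q * C3 * |∑ l, (a (n + 1) l + b (n + 1) l)| := by positivity
    constructor
    · linarith [key.1]
    · linarith [key.2]
  · -- case C
    have hit : (i : ℕ) + 1 ≤ t := by
      have : (i : ℕ) < N := hlt
      omega
    set s : Fin (t + 1) := ⟨(i : ℕ) + 1, by omega⟩ with hs
    have hsv : (s : ℕ) = i + 1 := rfl
    have his : i < s := by rw [Fin.lt_def, hsv]; omega
    have hsN : s ≤ N := by
      rw [Fin.le_def, hsv]; exact hlt
    have hS1 := hpf1 s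
    have hS0 : 0 < p s := by linarith
    have hbi : ∀ m, b m i = 0 := fun m => hb0 m i hlt
    have hPi : 0 < p i ^ (n + 1) := by have := hpf1 i; positivity
    have hai : p i ^ (n + 1) ≤ |a (n + 2) i| := by
      have h1 := pd_ge (n + 1) (hpf0 i) (hux i).1 (hux' i).1
      have h2 := dist_dvd (one_dvd (u i)) (one_dvd (u' i)) hi
      have e1 : ((u i : ℝ) + θ) - ((u' i : ℝ) + θ) = (u i : ℝ) - u' i := by ring
      rw [e1] at h1
      rw [Nat.cast_one] at h2
      calc p i ^ (n + 1) = 1 * p i ^ (n + 1) := (one_mul _).symm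
        _ ≤ |(u i : ℝ) - u' i| * p i ^ (n + 1) := mul_le_mul_of_nonneg_right h2 hPi.le
        _ ≤ _ := h1
    have hstep : p s ^ (n + 2) = K ^ (n + 2) * p i ^ (n + 1) := hS.step i (by omega)
    have hSZ : p s ^ (n + 2) ≤ K ^ (n + 2) * |a (n + 2) i| := by
      rw [hstep]; exact mul_le_mul_of_nonneg_left hai (by positivity)
    set Y : ℝ := |a (n + 2) i| / p s with hY
    have hZ : |a (n + 2) i| = p s * Y := by rw [hY]; field_simp
    have hY0 : 0 ≤ Y := by positivity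
    have hSY : p s ^ (n + 1) ≤ K ^ (n + 2) * Y := by
      have h : p s * p s ^ (n + 1) ≤ p s * (K ^ (n + 2) * Y) := by
        calc p s * p s ^ (n + 1) = p s ^ (n + 2) := by ring
          _ ≤ K ^ (n + 2) * (p s * Y) := by rw [← hZ]; exact hSZ
          _ = _ := by ring
      exact le_of_mul_le_mul_left h hS0
    have hSΛ : Λ ≤ p s := hbig s (by omega)
    have hrest : 8 * ((C3 + CG) * p s ^ (n + 1)) ≤ p s * Y := by
      have h1 : Λ * p s ^ (n + 1) ≤ K ^ (n + 2) * (p s * Y) := by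
        calc Λ * p s ^ (n + 1) ≤ p s * p s ^ (n + 1) := mul_le_mul_of_nonneg_right hSΛ (by positivity)
          _ = p s ^ (n + 2) := by ring
          _ ≤ K ^ (n + 2) * (p s * Y) := by rw [← hZ]; exact hSZ
      have h2 : K ^ (n + 2) * (8 * ((C3 + CG) * p s ^ (n + 1))) ≤ K ^ (n + 2) * (p s * Y) := by
        have h3 : 8 * (C3 + CG) * K ^ (n + 2) * p s ^ (n + 1) ≤ Λ * p s ^ (n + 1) :=
          mul_le_mul_of_nonneg_right hΛ2 (by positivity)
        linarith
      exact le_of_mul_le_mul_left h2 (by linarith)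
    have h2e1 : 2 * e ≤ 1 := by linarith
    have hVb : ∀ m, |b (m + 1) s| ≤ 2 * e * p s ^ (m + 1) := fun m => by
      refine (bsz' (m + 1) s).trans ?_
      have e1 : (2 * (e * p s)) ^ (m + 1) = (2 * e) ^ m * (2 * e * p s ^ (m + 1)) := by
        rw [show 2 * (e * p s) = (2 * e) * p s by ring, mul_pow, pow_succ (2 * e)]; ring
      rw [e1]
      exact mul_le_of_le_one_left (by positivity) (pow_le_one₀ (by positivity) h2e1)
    have hV : 8 * |b (n + 2) s| ≤ p s * Y := by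
      have h1 := hVb (n + 1)
      have h2 : 2 * e * p s ^ (n + 2) ≤ 2 * e * (K ^ (n + 2) * |a (n + 2) i|) :=
        mul_le_mul_of_nonneg_left hSZ (by positivity)
      have h3 : 16 * e * K ^ (n + 2) ≤ 1 := by
        have : 16 * e * K ^ (n + 2) ≤ 16 * Q * K ^ (n + 2) * e := by
          have h4 : 16 * Q * K ^ (n + 2) * e = Q * (16 * e * K ^ (n + 2)) := by ring
          rw [h4]; exact le_mul_of_one_le_left (by positivity) hQ1
        linarith
      have h4 : 16 * e * K ^ (n + 2) * |a (n + 2) i| ≤ 1 * |a (n + 2) i| :=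
        mul_le_mul_of_nonneg_right h3 (abs_nonneg _)
      rw [← hZ]; linarith
    have hV1 : 8 * Q * |b (n + 1) s| ≤ Y := by
      have h1 := hVb n
      have h2 : 2 * e * p s ^ (n + 1) ≤ 2 * e * (K ^ (n + 2) * Y) :=
        mul_le_mul_of_nonneg_left hSY (by positivity)
      have h3 : 8 * Q * |b (n + 1) s| ≤ 8 * Q * (2 * e * (K ^ (n + 2) * Y)) :=
        mul_le_mul_of_nonneg_left (h1.trans h2) (by positivity)
      have h4 : 8 * Q * (2 * e * (K ^ (n + 2) * Y)) = 16 * Q * K ^ (n + 2) * e * Y := by ring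
      rw [h4, heq, one_mul] at h3; exact h3
    have hne' : i ≠ s := ne_of_lt his
    have hfarl : ∀ l, l ≠ i → l ≠ s → (l < i ∨ s < l) := fun l h1 h2 => by
      rcases lt_or_gt_of_ne h1 with h | h
      · exact Or.inl h
      · right
        rcases lt_or_gt_of_ne h2 with h3 | h3
        · exfalso
          rw [Fin.lt_def, hsv] at h3
          rw [Fin.lt_def] at h
          omega
        · exact h3
    have T2 := tail2 (fun l => a (n + 2) l + b (n + 2) l) i s hne' (2 * (G * p s ^ (n + 1))) (by positivity)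
      (fun l h1 h2 => by
        rcases hfarl l h1 h2 with h | h
        · simp only [ha0 _ l h, hb0 _ l (h.trans hlt), add_zero, abs_zero]; positivity
        · exact abs_add_two ((asz _ l).trans (far2 s l h)) ((bsz _ l).trans (far2 s l h)))
    -- tails of the first derivative
    have hfar1 : ∀ l, s < l → (Q * p l) ^ (n + 1) ≤ G * Y / Λ := fun l h => by
      have h' : (s : ℕ) + 1 ≤ l := h
      have h1 : Λ * p l ≤ p s :=
        (mul_le_mul_of_nonneg_left (sn_anti hS hΛp h' (by omega)) (by linarith)).trans (hS.gap s (by omega))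
      rw [le_div_iff₀ (by linarith)]
      have h2 : (Q * p l) ^ (n + 1) * Λ ≤ (Q * p s) ^ (n + 1) := by
        have h3 : Λ ≤ Λ ^ (n + 1) := le_self_pow₀ hΛp (by omega)
        calc (Q * p l) ^ (n + 1) * Λ ≤ (Q * p l) ^ (n + 1) * Λ ^ (n + 1) :=
              mul_le_mul_of_nonneg_left h3 (by have := hQpl0 l; positivity)
          _ = (Q * (Λ * p l)) ^ (n + 1) := by rw [← mul_pow]; ring
          _ ≤ (Q * p s) ^ (n + 1) := pow_le_pow_left₀ (by have := hpf0 l; positivity)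
              (mul_le_mul_of_nonneg_left h1 hQ0.le) _
      refine h2.trans ?_
      rw [mul_pow, hG]
      have h4 : Q ^ (n + 1) ≤ Q ^ (n + 2) := pow_le_pow_right₀ hQ1 (by omega)
      calc Q ^ (n + 1) * p s ^ (n + 1) ≤ Q ^ (n + 2) * (K ^ (n + 2) * Y) :=
            mul_le_mul h4 hSY (by positivity) (by positivity)
        _ = _ := by ring
    have T1 := tail2 (fun l => a (n + 1) l + b (n + 1) l) i s hne' (2 * (G * Y / Λ)) (by positivity)
      (fun l h1 h2 => by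
        rcases hfarl l h1 h2 with h | h
        · simp only [ha0 _ l h, hb0 _ l (h.trans hlt), add_zero, abs_zero]; positivity
        · exact abs_add_two ((asz _ l).trans (hfar1 l h)) ((bsz _ l).trans (hfar1 l h)))
    have hPS : Λ * p s ≤ p i := hS.gap i (by omega)
    simp only [hbi, add_zero] at T1 T2
    have key := numC (P := p i) (S := p s) (Y := Y) (Λ := Λ) (Q := Q) (C3 := C3) (a := a (n + 2) i) (a1 := a (n + 1) i)
      (U := a (n + 2) s) (U1 := a (n + 1) s) (V1 := b (n + 1) s) (D1 := ∑ l, (a (n + 1) l + b (n + 1) l))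
      (T := |b (n + 2) s| + (C3 + CG) * p s ^ (n + 1)) (E := t * (2 * (G * Y / Λ))) hS1 hQ1 hΛp hΛ3 hZ
      (by
        have e1 : a (n + 2) i + a (n + 2) s = (-(∑ l, (a (n + 2) l + b (n + 2) l) -
          (a (n + 2) i + (a (n + 2) s + b (n + 2) s)))) + (∑ l, (a (n + 2) l + b (n + 2) l) - b (n + 2) s) := by ring
        have h1 := abs_add_le (-(∑ l, (a (n + 2) l + b (n + 2) l) -
          (a (n + 2) i + (a (n + 2) s + b (n + 2) s)))) (∑ l, (a (n + 2) l + b (n + 2) l) - b (n + 2) s)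
        rw [← e1, abs_neg] at h1
        have h2 := abs_sub (∑ l, (a (n + 2) l + b (n + 2) l)) (b (n + 2) s)
        have h3 : (t:ℝ) * (2 * (G * p s ^ (n + 1))) ≤ C3 * p s ^ (n + 1) := by
          have := mul_le_mul_of_nonneg_right htG (by positivity : 0 ≤ p s ^ (n + 1))
          linarith
        have h4 : |∑ l, (a (n + 2) l + b (n + 2) l)| ≤ CG * p s ^ (n + 1) :=
          hD.trans (mul_le_mul_of_nonneg_left (hpt s) hCG)
        linarith)
      (by linarith)
      (pd_mul (n + 1) (hpf0 i) (hux i).1 (hux' i).1) hPS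
      (pd_le n (hu0 s) (hu0' s) (hux s).2 (hux' s).2) hV1
      (by
        have e1 : Λ * (t * (2 * (G * Y / Λ))) = t * (2 * G) * Y := by field_simp
        rw [e1]; exact mul_le_mul_of_nonneg_right htG hY0)
      T1
    obtain ⟨k1, k2⟩ := key
    -- all the terms from `s` on
    have hall : ∀ l, l < s ∨ (Q * p l) ^ (n + 1) ≤ G * Y := fun l => by
      rcases lt_or_ge l s with h | h
      · exact Or.inl h
      · right
        have h1 : p l ≤ p s := sn_anti hS hΛp h (by omega)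
        have h2 : (Q * p l) ^ (n + 1) ≤ (Q * p s) ^ (n + 1) :=
          pow_le_pow_left₀ (hQpl0 l) (mul_le_mul_of_nonneg_left h1 hQ0.le) _
        refine h2.trans ?_
        rw [mul_pow, hG]
        have h4 : Q ^ (n + 1) ≤ Q ^ (n + 2) := pow_le_pow_right₀ hQ1 (by omega)
        calc Q ^ (n + 1) * p s ^ (n + 1) ≤ Q ^ (n + 2) * (K ^ (n + 2) * Y) :=
              mul_le_mul h4 hSY (by positivity) (by positivity)
          _ = _ := by ring
    have hGY : 0 ≤ G * Y := by positivity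
    have hYG : Y ≤ G * Y := le_mul_of_one_le_left hY0 hG1
    have hbl : ∀ m l, m ≤ n + 1 → |b m l| ≤ G * Y := fun m l hm => by
      rcases hall l with h | h
      · rw [hb0 m l (lt_of_lt_of_le h hsN), abs_zero]; exact hGY
      · exact (bsz m l).trans ((pow_le_pow_right₀ (hQp1 l) hm).trans h)
    have hal : ∀ l, |a n l| ≤ G * Y := fun l => by
      rcases hall l with h | h
      · rcases lt_trichotomy l i with h1 | h1 | h1
        · rw [ha0 n l h1, abs_zero]; exact hGY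
        · subst h1
          have h2 : p l * |a n l| ≤ |a (n + 1) l| := pd_mul n (hpf0 l) (hux l).1 (hux' l).1
          have h3 : |a n l| ≤ p l * |a n l| := le_mul_of_one_le_left (abs_nonneg _) (hpf1 l)
          linarith
        · exfalso
          rw [Fin.lt_def, hsv] at h
          rw [Fin.lt_def] at h1
          omega
      · exact (asz n l).trans ((low l).trans h)
    have hcard : ∀ (f : Fin (t + 1) → ℝ) (E : ℝ), (∀ l, |f l| ≤ E) → |∑ l, f l| ≤ ((t:ℝ) + 1) * E := fun f E h => by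
      refine (abs_sum_le_sum_abs _ _).trans ((Finset.sum_le_card_nsmul _ _ E fun l _ => h l).trans ?_)
      rw [card_univ, Fintype.card_fin, nsmul_eq_mul]; push_cast; exact le_rfl
    have hΔ := hcard (fun l => (v l : ℝ) ^ (n + 1) - (v' l : ℝ) ^ (n + 1)) (G * Y) fun l =>
      (hsh l).trans (hbl (n + 1) l le_rfl)
    have hD2 := hcard (fun l => a n l + b n l) (2 * (G * Y)) fun l => abs_add_two (hal l) (hbl n l (by omega))
    have hC3Y : ((t:ℝ) + 1) * (2 * (G * Y)) = C3 * Y := by rw [hC3]; ring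
    have h1 : C3 * Y ≤ C3 * (8 * Q * |∑ l, (a (n + 1) l + b (n + 1) l)|) := mul_le_mul_of_nonneg_left k1 hC30.le
    have h2 : 0 ≤ (2 / e + 1) * |∑ l, (a (n + 1) l + b (n + 1) l)| := by positivity
    have h3 : 0 ≤ (3 + 4 / e) * |∑ l, (a (n + 1) l + b (n + 1) l)| := by positivity
    have h4 : 0 ≤ 8 * Q * C3 * |∑ l, (a (n + 1) l + b (n + 1) l)| := by positivity
    have h5 : 0 ≤ ((t:ℝ) + 1) * (G * Y) := by positivity
    constructor
    · linarith
    · linarith

/-- N5: separation and transversality for the second block -/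
theorem transv (n R t : ℕ) (K CG : ℝ) (hK : 1 ≤ K) (hCG : 0 ≤ CG) : ∃ e A κ M Λ : ℝ, 0 < e ∧ e ≤ 1 / 4 ∧ 1 ≤ A ∧ 0 < κ ∧
    0 < M ∧ 8 ≤ Λ ∧ ∀ (j : ℕ) (p : ℕ → ℝ), SN Λ K n j (t + 1) p →
      (∀ v ∈ YY e A (t + 1) p, ∀ v' ∈ YY e A (t + 1) p, v ≠ v' → 1 ≤ |TT (n + 1) 0 v - TT (n + 1) 0 v'|) ∧
      ∀ θ : ℝ, 0 ≤ θ → θ ≤ 1 → ∀ u ∈ XS R (t + 1) p, ∀ u' ∈ XS R (t + 1) p, ∀ v ∈ YY e A (t + 1) p,
        ∀ v' ∈ YY e A (t + 1) p, v ≠ v' →
        |TT (n + 2) θ u + TT (n + 2) θ v - (TT (n + 2) θ u' + TT (n + 2) θ v')| ≤ CG * p t ^ (n + 1) →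
        κ * |TT (n + 1) 0 v - TT (n + 1) 0 v'| ≤
          |TT (n + 1) θ u + TT (n + 1) θ v - (TT (n + 1) θ u' + TT (n + 1) θ v')| ∧
        |TT n θ u + TT n θ v - (TT n θ u' + TT n θ v')| * |TT (n + 1) 0 v - TT (n + 1) 0 v'| ≤
          M * (TT (n + 1) θ u + TT (n + 1) θ v - (TT (n + 1) θ u' + TT (n + 1) θ v')) ^ 2 := by
  have hK0 : 0 < K := by linarith
  obtain ⟨Q, hQ⟩ : ∃ Q : ℝ, Q = R + 1 := ⟨_, rfl⟩
  have hQ1 : 1 ≤ Q := by have : (0:ℝ) ≤ R := Nat.cast_nonneg R; linarith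
  have hQ0 : 0 < Q := by linarith
  obtain ⟨G, hG⟩ : ∃ G : ℝ, G = Q ^ (n + 2) * K ^ (n + 2) := ⟨_, rfl⟩
  have hG1 : 1 ≤ G := by
    rw [hG]; exact one_le_mul_of_one_le_of_one_le (one_le_pow₀ hQ1) (one_le_pow₀ hK)
  have hKk : 1 ≤ K ^ (n + 2) := one_le_pow₀ hK
  obtain ⟨C3, hC3⟩ : ∃ C3 : ℝ, C3 = 2 * (t + 1) * G := ⟨_, rfl⟩
  have ht0 : (0:ℝ) ≤ t := Nat.cast_nonneg t
  have hC30 : 0 < C3 := by rw [hC3]; positivity
  have htG : (t:ℝ) * (2 * G) ≤ C3 := by rw [hC3]; nlinarith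
  obtain ⟨e, he⟩ : ∃ e : ℝ, e = 1 / (16 * Q * K ^ (n + 2)) := ⟨_, rfl⟩
  have he0 : 0 < e := by rw [he]; positivity
  have heq : 16 * Q * K ^ (n + 2) * e = 1 := by rw [he]; field_simp
  have he16 : 16 * e ≤ 1 := by
    have h1 : 1 ≤ Q * K ^ (n + 2) := one_le_mul_of_one_le_of_one_le hQ1 hKk
    nlinarith
  obtain ⟨A, hA⟩ : ∃ A : ℝ, A = (10 * (C3 + CG) + 1) / (e / 2) ^ (n + 1) := ⟨_, rfl⟩
  have hA0 : 0 < A := by rw [hA]; positivity
  have hAeq : A * (e / 2) ^ (n + 1) = 10 * (C3 + CG) + 1 := by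
    rw [hA]; exact div_mul_cancel₀ _ (by positivity)
  have hepow : (e / 2) ^ (n + 1) ≤ 1 := pow_le_one₀ (by positivity) (by linarith)
  have hA1 : 1 ≤ A := by
    have : A * (e / 2) ^ (n + 1) ≤ A * 1 := mul_le_mul_of_nonneg_left hepow hA0.le
    rw [hAeq] at this; linarith
  obtain ⟨Λ, hΛ⟩ : ∃ Λ : ℝ, Λ = 1 / e + 8 * (C3 + CG) * K ^ (n + 2) + 8 * Q * (1 + C3) + 8 := ⟨_, rfl⟩
  have g1 : 0 < 1 / e := by positivity
  have g2 : 0 ≤ 8 * (C3 + CG) * K ^ (n + 2) := by positivity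
  have g3 : 0 ≤ 8 * Q * (1 + C3) := by positivity
  have hΛ1 : 1 ≤ e * Λ := by
    have : e * (1 / e) ≤ e * Λ := mul_le_mul_of_nonneg_left (by linarith) he0.le
    rwa [mul_one_div_cancel he0.ne'] at this
  have hΛ2 : 8 * (C3 + CG) * K ^ (n + 2) ≤ Λ := by linarith
  have hΛ3 : 8 * Q * (1 + C3) ≤ Λ := by linarith
  have hΛ8 : 8 ≤ Λ := by linarith
  have hΛp : 1 ≤ Λ := by linarith
  obtain ⟨W, hW⟩ : ∃ W : ℝ, W = 2 / e + 1 + 8 * Q * C3 := ⟨_, rfl⟩
  have hW0 : 0 < W := by rw [hW]; positivity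
  obtain ⟨CD, hCD⟩ : ∃ CD : ℝ, CD = 3 + 4 / e + 16 * Q * C3 := ⟨_, rfl⟩
  have hCD0 : 0 < CD := by rw [hCD]; positivity
  refine ⟨e, A, 1 / W, CD * W, Λ, he0, by linarith, hA1, by positivity, by positivity, hΛ8, ?_⟩
  intro j p hS
  constructor
  · -- separation
    intro v hv v' hv' hne
    have hbig : ∀ i, i ≤ t + 1 → Λ ≤ p i := hS.big
    have hp1 : ∀ i, i ≤ t + 1 → 1 ≤ p i := fun i hi => hΛp.trans (hbig i hi)
    have hpf1 : ∀ i : Fin (t + 1), 1 ≤ p i := fun i => hp1 i (by omega)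
    have hpf0 : ∀ i : Fin (t + 1), 0 ≤ p i := fun i => by linarith [hpf1 i]
    obtain ⟨N, hN, hNmin⟩ := first_diff v v' hne
    have hm := mem_YY hv hpf0 he0.le
    have hm' := mem_YY hv' hpf0 he0.le
    have eT : TT (n + 1) 0 v - TT (n + 1) 0 v' = ∑ l, ((v l : ℝ) ^ (n + 1) - (v' l : ℝ) ^ (n + 1)) := by
      simp only [TT, add_zero, sum_sub_distrib]
    rw [eT]
    set q : ℝ := p N / p (N + 1) with hq
    have hPN0 : 0 < p N := by linarith [hpf1 N]
    have hqΛ : Λ ≤ q := by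
      rw [hq, le_div_iff₀ (by linarith [hp1 (N + 1) (by omega)])]
      exact hS.gap N (by omega)
    have hq1 : 1 ≤ q := hΛp.trans hqΛ
    have hfar : ∀ l, N < l → |(v l : ℝ) ^ (n + 1) - (v' l : ℝ) ^ (n + 1)| ≤ G * (p N ^ n * q) := fun l hl => by
      have hl' : (N : ℕ) + 1 ≤ l := hl
      have h1 : p l ≤ p (N + 1) := sn_anti hS hΛp hl' (by omega)
      have h2 : e * p l ≤ Q * p (N + 1) :=
        mul_le_mul (by linarith) h1 (hpf0 l) hQ0.le
      refine (pd_bd (n + 1) (Nat.cast_nonneg _) (Nat.cast_nonneg _) ((hm l).2.1.trans h2) ((hm' l).2.1.trans h2)).trans ?_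
      rw [mul_pow, sn_step hS hΛp (by omega), hG]
      have h3 : Q ^ (n + 1) ≤ Q ^ (n + 2) := pow_le_pow_right₀ hQ1 (by omega)
      have h4 : 0 ≤ K ^ (n + 2) * (p N ^ n * (p N / p (N + 1))) := by
        have := hp1 (N + 1) (by omega)
        positivity
      calc Q ^ (n + 1) * (K ^ (n + 2) * (p N ^ n * (p N / p (N + 1)))) ≤
          Q ^ (n + 2) * (K ^ (n + 2) * (p N ^ n * (p N / p (N + 1)))) := mul_le_mul_of_nonneg_right h3 h4
        _ = _ := by rw [hq]; ring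
    have T1 := tail (fun l => (v l : ℝ) ^ (n + 1) - (v' l : ℝ) ^ (n + 1)) N (G * (p N ^ n * q)) (fun l hl => by
      rcases lt_or_gt_of_ne hl with h | h
      · simp only [hNmin l h, sub_self, abs_zero]; positivity
      · exact hfar l h)
    have hmain : (10 * (C3 + CG) + 1) * (p N ^ n * q) ≤ |(v N : ℝ) ^ (n + 1) - (v' N : ℝ) ^ (n + 1)| := by
      have h1 := pd_ge n (by positivity : 0 ≤ e * p N / 2) (hm N).1 (hm' N).1
      have h3 : A * q ≤ |(v N : ℝ) - v' N| := by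
        have h4 := (Nat.le_ceil (A * (p N / p (N + 1)))).trans (dist_dvd (hm N).2.2 (hm' N).2.2 hN)
        rw [← hq] at h4; exact h4
      have h5 : 0 ≤ (e * p N / 2) ^ n := by positivity
      have h6 : (e / 2) ^ (n + 1) ≤ (e / 2) ^ n :=
        pow_le_pow_of_le_one (by positivity) (by linarith) (by omega)
      calc (10 * (C3 + CG) + 1) * (p N ^ n * q) = A * (e / 2) ^ (n + 1) * (p N ^ n * q) := by rw [hAeq]
        _ ≤ A * (e / 2) ^ n * (p N ^ n * q) := mul_le_mul_of_nonneg_right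
            (mul_le_mul_of_nonneg_left h6 hA0.le) (by positivity)
        _ = A * q * (e * p N / 2) ^ n := by
          have : (e * p N / 2) ^ n = (e / 2) ^ n * p N ^ n := by rw [← mul_pow]; ring
          rw [this]; ring
        _ ≤ _ := (mul_le_mul_of_nonneg_right h3 h5).trans h1
    have h1 : 1 ≤ p N ^ n * q := one_le_mul_of_one_le_of_one_le (one_le_pow₀ (hpf1 N)) hq1
    have h2 : (t:ℝ) * (G * (p N ^ n * q)) ≤ C3 * (p N ^ n * q) := by
      have h3 := mul_le_mul_of_nonneg_right htG (by linarith : 0 ≤ p N ^ n * q)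
      have h4 : 0 ≤ (t:ℝ) * (G * (p N ^ n * q)) := by positivity
      linarith
    have h3 := abs_sub (∑ l, ((v l : ℝ) ^ (n + 1) - (v' l : ℝ) ^ (n + 1)))
      (∑ l, ((v l : ℝ) ^ (n + 1) - (v' l : ℝ) ^ (n + 1)) - ((v N : ℝ) ^ (n + 1) - (v' N : ℝ) ^ (n + 1)))
    rw [sub_sub_cancel] at h3
    have h4 : 0 ≤ (9 * C3 + 10 * CG) * (p N ^ n * q) := by positivity
    linarith
  · intro θ hθ hθ1 u hu u' hu' v hv v' hv' hne hD
    obtain ⟨k1, k2⟩ := core n R t j K CG Q G C3 e A Λ θ hK hCG hQ hG hC3 he0 heq hAeq hA0 hΛ1 hΛ2 hΛ3 hΛ8 hθ hθ1 p hS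
      u u' v v' hu hu' hv hv' hne hD
    rw [← hW] at k1
    rw [← hCD] at k2
    constructor
    · rw [one_div, inv_mul_le_iff₀ hW0]; exact k1
    · set x := TT (n + 1) θ u + TT (n + 1) θ v - (TT (n + 1) θ u' + TT (n + 1) θ v')
      have h1 := mul_le_mul k2 k1 (abs_nonneg _) (by positivity)
      have h2 : CD * |x| * (W * |x|) = CD * W * x ^ 2 := by
        rw [← sq_abs x]; ring
      rw [h2] at h1; exact h1

end Pool.Agent.D0H16.SH
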