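import Pool.Agent.D0H17.SH.Defs

set_option autoImplicit false

namespace Pool.Agent.D0H16.SH

open Finset Pool.Agent.D0H17.GE Pool.Agent.D0H17.SH

theorem pd_mul (m : ℕ) {x x' L : ℝ} (hL : 0 ≤ L) (hx : L ≤ x) (hx' : L ≤ x') :
    L * |x ^ m - x' ^ m| ≤ |x ^ (m + 1) - x' ^ (m + 1)| := by
  wlog h : x' ≤ x generalizing x x'
  · rw [abs_sub_comm, abs_sub_comm (x ^ (m + 1))]
    exact this hx' hx (le_of_not_ge h)
  have h0 : 0 ≤ x' := hL.trans hx'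
  have h1 : x' ^ m ≤ x ^ m := pow_le_pow_left₀ h0 h m
  have h2 : x' ^ (m + 1) ≤ x ^ (m + 1) := pow_le_pow_left₀ h0 h (m + 1)
  rw [abs_of_nonneg (by linarith), abs_of_nonneg (by linarith), pow_succ, pow_succ]
  have h3 : 0 ≤ x' ^ m := pow_nonneg h0 m
  nlinarith [mul_nonneg (sub_nonneg.2 h) (h3.trans h1), mul_nonneg (sub_nonneg.2 hx') (sub_nonneg.2 h1)]

theorem pd_ge (m : ℕ) {x x' L : ℝ} (hL : 0 ≤ L) (hx : L ≤ x) (hx' : L ≤ x') :
    |x - x'| * L ^ m ≤ |x ^ (m + 1) - x' ^ (m + 1)| := by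
  induction m with
  | zero => simp
  | succ m ih =>
    refine le_trans ?_ (pd_mul (m + 1) hL hx hx')
    calc |x - x'| * L ^ (m + 1) = L * (|x - x'| * L ^ m) := by ring
      _ ≤ L * |x ^ (m + 1) - x' ^ (m + 1)| := mul_le_mul_of_nonneg_left ih hL

theorem pd_le (m : ℕ) {x x' B : ℝ} (h0 : 0 ≤ x) (h0' : 0 ≤ x') (hx : x ≤ B) (hx' : x' ≤ B) :
    |x ^ (m + 2) - x' ^ (m + 2)| ≤ 2 * B * |x ^ (m + 1) - x' ^ (m + 1)| := by
  wlog h : x' ≤ x generalizing x x'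
  · rw [abs_sub_comm, abs_sub_comm (x ^ (m + 1))]
    exact this h0' h0 hx' hx (le_of_not_ge h)
  have h1 : x' ^ (m + 1) ≤ x ^ (m + 1) := pow_le_pow_left₀ h0' h (m + 1)
  have h2 : x' ^ (m + 2) ≤ x ^ (m + 2) := pow_le_pow_left₀ h0' h (m + 2)
  have h4 := pd_ge m h0' h le_rfl
  rw [abs_of_nonneg (sub_nonneg.2 h), abs_of_nonneg (sub_nonneg.2 h1)] at h4
  rw [abs_of_nonneg (sub_nonneg.2 h2), abs_of_nonneg (sub_nonneg.2 h1)]
  have h5 : x ^ (m + 2) - x' ^ (m + 2) = x * (x ^ (m + 1) - x' ^ (m + 1)) + x' * ((x - x') * x' ^ m) := by ring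
  rw [h5]
  have h6 := mul_le_mul_of_nonneg_left h4 h0'
  have h7 := mul_le_mul_of_nonneg_right (add_le_add hx hx') (sub_nonneg.2 h1)
  linarith

theorem pd_bd (m : ℕ) {x x' B : ℝ} (h0 : 0 ≤ x) (h0' : 0 ≤ x') (hx : x ≤ B) (hx' : x' ≤ B) :
    |x ^ m - x' ^ m| ≤ B ^ m := by
  have h1 := pow_le_pow_left₀ h0 hx m
  have h2 := pow_le_pow_left₀ h0' hx' m
  have h3 := pow_nonneg h0 m
  have h4 := pow_nonneg h0' m
  rw [abs_le]; constructor <;> linarith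

theorem pd_shift (m : ℕ) {x x' θ : ℝ} (h0 : 0 ≤ x) (h0' : 0 ≤ x') (hθ : 0 ≤ θ) :
    |x ^ m - x' ^ m| ≤ |(x + θ) ^ m - (x' + θ) ^ m| := by
  wlog h : x' ≤ x generalizing x x'
  · rw [abs_sub_comm, abs_sub_comm ((x + θ) ^ m)]
    exact this h0' h0 (le_of_not_ge h)
  have h1 : x' ^ m ≤ x ^ m := pow_le_pow_left₀ h0' h m
  have h2 : (x' + θ) ^ m ≤ (x + θ) ^ m := pow_le_pow_left₀ (by linarith) (by linarith) m
  rw [abs_of_nonneg (sub_nonneg.2 h1), abs_of_nonneg (sub_nonneg.2 h2)]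
  clear h1 h2
  induction m with
  | zero => simp
  | succ m ih =>
    have h1 : x' ^ m ≤ x ^ m := pow_le_pow_left₀ h0' h m
    have h2 : x' ^ m ≤ (x' + θ) ^ m := pow_le_pow_left₀ h0' (by linarith) m
    have e1 : x ^ (m + 1) - x' ^ (m + 1) = x * (x ^ m - x' ^ m) + (x - x') * x' ^ m := by ring
    have e2 : (x + θ) ^ (m + 1) - (x' + θ) ^ (m + 1) =
        (x + θ) * ((x + θ) ^ m - (x' + θ) ^ m) + (x - x') * (x' + θ) ^ m := by ring
    rw [e1, e2]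
    have h3 : x * (x ^ m - x' ^ m) ≤ (x + θ) * ((x + θ) ^ m - (x' + θ) ^ m) :=
      mul_le_mul (by linarith) ih (sub_nonneg.2 h1) (by linarith)
    have h4 := mul_le_mul_of_nonneg_left h2 (sub_nonneg.2 h)
    linarith

theorem tail {t : ℕ} (f : Fin (t + 1) → ℝ) (i : Fin (t + 1)) (E : ℝ) (h : ∀ l, l ≠ i → |f l| ≤ E) :
    |∑ l, f l - f i| ≤ t * E := by
  have h1 : ∑ l, f l - f i = ∑ l ∈ univ.erase i, f l := by
    rw [← Finset.add_sum_erase univ f (mem_univ i)]; ring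
  rw [h1]
  refine (abs_sum_le_sum_abs _ _).trans ((Finset.sum_le_card_nsmul _ _ E fun l hl => h l (ne_of_mem_erase hl)).trans ?_)
  rw [card_erase_of_mem (mem_univ i), card_univ, Fintype.card_fin, nsmul_eq_mul]
  simp

theorem tail2 {t : ℕ} (f : Fin (t + 1) → ℝ) (i s : Fin (t + 1)) (his : i ≠ s) (E : ℝ) (hE : 0 ≤ E)
    (h : ∀ l, l ≠ i → l ≠ s → |f l| ≤ E) : |∑ l, f l - (f i + f s)| ≤ t * E := by
  have h1 : ∑ l, f l - (f i + f s) = ∑ l ∈ (univ.erase i).erase s, f l := by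
    rw [← Finset.add_sum_erase univ f (mem_univ i),
      ← Finset.add_sum_erase (univ.erase i) f (mem_erase.2 ⟨his.symm, mem_univ s⟩)]; ring
  rw [h1]
  refine (abs_sum_le_sum_abs _ _).trans ((Finset.sum_le_card_nsmul _ _ E fun l hl => ?_).trans ?_)
  · exact h l (ne_of_mem_erase (mem_of_mem_erase hl)) (ne_of_mem_erase hl)
  · rw [nsmul_eq_mul]
    apply mul_le_mul_of_nonneg_right _ hE
    have : ((univ.erase i).erase s).card ≤ (univ.erase i).card := card_erase_le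
    rw [card_erase_of_mem (mem_univ i), card_univ, Fintype.card_fin] at this
    exact_mod_cast this

theorem first_diff {t : ℕ} (v v' : Fin (t + 1) → ℕ) (h : v ≠ v') :
    ∃ n, v n ≠ v' n ∧ ∀ l, l < n → v l = v' l := by
  classical
  have hne : (univ.filter fun l => v l ≠ v' l).Nonempty := by
    obtain ⟨l, hl⟩ := Function.ne_iff.1 h
    exact ⟨l, by simp [hl]⟩
  refine ⟨(univ.filter fun l => v l ≠ v' l).min' hne, ?_, ?_⟩
  · exact (mem_filter.1 (Finset.min'_mem _ hne)).2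
  · intro l hl
    by_contra hc
    exact absurd (Finset.min'_le _ l (by simp [hc])) (not_le.2 hl)

theorem mem_XS' {R t : ℕ} {p : ℕ → ℝ} {u : Fin (t + 1) → ℕ} (hu : u ∈ XS R (t + 1) p)
    (hp : ∀ i : Fin (t + 1), 0 ≤ p i) (l : Fin (t + 1)) : p l ≤ u l ∧ (u l : ℝ) ≤ R * p l := by
  have h := mem_Icc.1 (Fintype.mem_piFinset.1 hu l)
  exact ⟨(Nat.le_ceil _).trans (by exact_mod_cast h.1),
    (Nat.le_floor_iff (mul_nonneg (Nat.cast_nonneg _) (hp l))).1 h.2⟩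

theorem mem_YY {t : ℕ} {e A : ℝ} {p : ℕ → ℝ} {u : Fin (t + 1) → ℕ} (hu : u ∈ YY e A (t + 1) p)
    (hp : ∀ i : Fin (t + 1), 0 ≤ p i) (he : 0 ≤ e) (l : Fin (t + 1)) :
    e * p l / 2 ≤ u l ∧ (u l : ℝ) ≤ e * p l ∧ ⌈A * (p l / p (l + 1))⌉₊ ∣ u l := by
  have h := mem_filter.1 (Fintype.mem_piFinset.1 hu l)
  have h1 := mem_Icc.1 h.1
  exact ⟨(Nat.le_ceil _).trans (by exact_mod_cast h1.1),
    (Nat.le_floor_iff (mul_nonneg he (hp l))).1 h1.2, h.2⟩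

theorem dist_dvd {H a b : ℕ} (ha : H ∣ a) (hb : H ∣ b) (h : a ≠ b) : (H : ℝ) ≤ |(a : ℝ) - b| := by
  have h1 : (H : ℤ) ∣ (a : ℤ) - b := dvd_sub (Int.natCast_dvd_natCast.2 ha) (Int.natCast_dvd_natCast.2 hb)
  have h2 : (a : ℤ) - b ≠ 0 := by
    intro hc; apply h; omega
  have h3 : (H : ℤ) ≤ |(a : ℤ) - b| := Int.le_of_dvd (abs_pos.2 h2) ((dvd_abs _ _).2 h1)
  exact_mod_cast h3

end Pool.Agent.D0H16.SH
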