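import Pool.Agent.D0H16.SH.N5a

set_option autoImplicit false

namespace Pool.Agent.D0H16.SH

open Finset Pool.Agent.D0H17.GE Pool.Agent.D0H17.SH

theorem sn_anti {Λ K : ℝ} {n j T : ℕ} {p : ℕ → ℝ} (h : SN Λ K n j T p) (hΛ : 1 ≤ Λ) {i l : ℕ} (hil : i ≤ l)
    (hl : l ≤ T) : p l ≤ p i := by
  induction l, hil using Nat.le_induction with
  | base => exact le_rfl
  | succ l hil ih =>
    have h1 := h.gap l (by omega)
    have h2 := h.big (l + 1) hl
    have h3 : p (l + 1) ≤ Λ * p (l + 1) := by nlinarith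
    exact (h3.trans h1).trans (ih (by omega))

theorem sn_step {Λ K : ℝ} {n j T : ℕ} {p : ℕ → ℝ} (h : SN Λ K n j T p) (hΛ : 1 ≤ Λ) {i : ℕ} (hi : i < T) :
    p (i + 1) ^ (n + 1) = K ^ (n + 2) * (p i ^ n * (p i / p (i + 1))) := by
  have h1 : 0 < p (i + 1) := lt_of_lt_of_le (by linarith) (h.big (i + 1) hi)
  have h2 := h.step i hi
  have h3 : p (i + 1) ^ (n + 1) = p (i + 1) ^ (n + 2) / p (i + 1) := by
    rw [pow_succ _ (n + 1)]; field_simp
  rw [h3, h2]; ring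

theorem abs_add_two {x y E : ℝ} (h1 : |x| ≤ E) (h2 : |y| ≤ E) : |x + y| ≤ 2 * E :=
  (abs_add_le x y).trans (by linarith)

/-- first block (case B): final inequalities -/
theorem numB {P X a a1 a2 b b1 b2 D1 D2 Δ e T E : ℝ} (hP : 1 ≤ P) (he : 0 < e) (heP : 1 ≤ e * P) (he16 : 16 * e ≤ 1)
    (hb : |b| = P * X) (hab : |a + b| ≤ T) (hT : 10 * T ≤ P * X)
    (ha1 : P * |a1| ≤ |a|) (ha2 : P * |a2| ≤ |a1|) (hb1 : |b| ≤ 2 * (2 * (e * P)) * |b1|)
    (hb1' : e * P / 2 * |b1| ≤ |b|) (hb2 : e * P / 2 * |b2| ≤ |b1|)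
    (hE : E ≤ X) (hD1 : |D1 - (a1 + b1)| ≤ E) (hD2 : |D2 - (a2 + b2)| ≤ E) (hΔ : Δ ≤ |b1| + E) :
    Δ ≤ (2 / e + 1) * |D1| ∧ |D2| ≤ (3 + 4 / e) * |D1| := by
  have hP0 : 0 < P := by linarith
  have hX0 : 0 ≤ X := by
    have := abs_nonneg b
    rw [hb] at this
    exact nonneg_of_mul_nonneg_right this hP0
  have h1 : |a| ≤ 11 / 10 * (P * X) := by
    have h := abs_sub (a + b) b
    rw [add_sub_cancel_right] at h
    linarith
  have h2 : |a1| ≤ 11 / 10 * X := by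
    have : P * |a1| ≤ P * (11 / 10 * X) := by linarith
    exact le_of_mul_le_mul_left this hP0
  have h3 : |a2| ≤ 11 / 10 * X := by
    have : |a2| ≤ P * |a2| := le_mul_of_one_le_left (abs_nonneg _) hP
    linarith
  have h4 : 4 * X ≤ |b1| := by
    have h : P * (4 * X) ≤ P * |b1| := by
      have h5 : 2 * (2 * (e * P)) * |b1| = (16 * e) * (P * |b1|) / 4 := by ring
      have h6 : (16 * e) * (P * |b1|) ≤ 1 * (P * |b1|) := mul_le_mul_of_nonneg_right he16 (by positivity)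
      rw [h5, hb] at hb1
      linarith
    exact le_of_mul_le_mul_left h hP0
  have h5 : |b1| ≤ 2 / e * X := by
    have h : (e * P / 2) * |b1| ≤ (e * P / 2) * (2 / e * X) := by
      have : (e * P / 2) * (2 / e * X) = P * X := by field_simp
      rw [this, ← hb]; exact hb1'
    exact le_of_mul_le_mul_left h (by positivity)
  have h6 : |b2| ≤ 4 / e * X := by
    have h : (1 / 2) * |b2| ≤ (e * P / 2) * |b2| := mul_le_mul_of_nonneg_right (by linarith) (abs_nonneg _)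
    have : 4 / e * X = 2 * (2 / e * X) := by ring
    rw [this]; linarith
  have h7 : X ≤ |D1| := by
    have e1 : b1 = (-(D1 - (a1 + b1))) + (D1 - a1) := by ring
    have g1 := abs_add_le (-(D1 - (a1 + b1))) (D1 - a1)
    rw [← e1, abs_neg] at g1
    have g2 := abs_sub D1 a1
    linarith
  have h8 : 0 ≤ 2 / e := by positivity
  have h9 : 0 ≤ 4 / e := by positivity
  constructor
  · have : (2 / e + 1) * X ≤ (2 / e + 1) * |D1| := mul_le_mul_of_nonneg_left h7 (by linarith)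
    linarith
  · have : (3 + 4 / e) * X ≤ (3 + 4 / e) * |D1| := mul_le_mul_of_nonneg_left h7 (by linarith)
    have g1 : |D2| ≤ |D2 - (a2 + b2)| + |a2 + b2| := by
      have := abs_add_le (D2 - (a2 + b2)) (a2 + b2)
      rwa [sub_add_cancel] at this
    have g2 := abs_add_le a2 b2
    linarith

/-- second block (case C): final inequalities -/
theorem numC {P S Y Λ Q C3 a a1 U U1 V1 D1 T E : ℝ} (hS : 1 ≤ S) (hQ : 1 ≤ Q) (hΛ : 1 ≤ Λ)
    (hΛQ : 8 * Q * (1 + C3) ≤ Λ)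
    (ha : |a| = S * Y) (hUa : |a + U| ≤ T) (hT : 4 * T ≤ S * Y)
    (ha1 : P * |a1| ≤ |a|) (hPS : Λ * S ≤ P) (hU : |U| ≤ 2 * (Q * S) * |U1|) (hV1 : 8 * Q * |V1| ≤ Y)
    (hE : Λ * E ≤ C3 * Y) (hD1 : |D1 - (a1 + (U1 + V1))| ≤ E) : Y ≤ 8 * Q * |D1| ∧ |a1| ≤ Y := by
  have hS0 : 0 < S := by linarith
  have hY0 : 0 ≤ Y := by
    have := abs_nonneg a
    rw [ha] at this
    exact nonneg_of_mul_nonneg_right this hS0
  have h1 : 3 / 4 * (S * Y) ≤ |U| := by
    have h := abs_sub (a + U) U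
    rw [add_sub_cancel_right] at h
    linarith
  have h2 : 3 * Y ≤ 8 * Q * |U1| := by
    have : S * (3 * Y) ≤ S * (8 * Q * |U1|) := by linarith
    exact le_of_mul_le_mul_left this hS0
  have h3 : Λ * |a1| ≤ Y := by
    have h : S * (Λ * |a1|) ≤ S * Y := by
      have : Λ * S * |a1| ≤ P * |a1| := mul_le_mul_of_nonneg_right hPS (abs_nonneg _)
      linarith
    exact le_of_mul_le_mul_left h hS0
  have hΛ0 : 0 < Λ := by linarith
  have h4 : Λ * (8 * Q * |a1| + 8 * Q * E) ≤ Λ * Y := by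
    have g1 : 8 * Q * (Λ * |a1|) ≤ 8 * Q * Y := mul_le_mul_of_nonneg_left h3 (by linarith)
    have g2 : 8 * Q * (Λ * E) ≤ 8 * Q * (C3 * Y) := mul_le_mul_of_nonneg_left hE (by linarith)
    have g3 : 8 * Q * (1 + C3) * Y ≤ Λ * Y := mul_le_mul_of_nonneg_right hΛQ hY0
    linarith
  have h5 : 8 * Q * |a1| + 8 * Q * E ≤ Y := le_of_mul_le_mul_left h4 hΛ0
  constructor
  · have e1 : U1 = (-(D1 - (a1 + (U1 + V1)))) + (D1 - (a1 + V1)) := by ring
    have g1 := abs_add_le (-(D1 - (a1 + (U1 + V1)))) (D1 - (a1 + V1))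
    rw [← e1, abs_neg] at g1
    have g2 := abs_sub D1 (a1 + V1)
    have g3 := abs_add_le a1 V1
    have g4 : |U1| ≤ E + |D1| + |a1| + |V1| := by linarith
    have g5 : 8 * Q * |U1| ≤ 8 * Q * (E + |D1| + |a1| + |V1|) := mul_le_mul_of_nonneg_left g4 (by linarith)
    linarith
  · have : |a1| ≤ Λ * |a1| := le_mul_of_one_le_left (abs_nonneg _) hΛ
    linarith

end Pool.Agent.D0H16.SH
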